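import Pool.Agent.helper27.PC3.Stmt3

/-!
# RRC: commutators of two creation operators, of a diagonal operator and a creation operator
-/

namespace Pool.Agent.helper27.PC

open Module Finset

section rrc

variable {R : Type} [CommRing R]

theorem RRC_Dg_single (x : Lab → R) (S : St) (c : R) :
    Dg x (Finsupp.single S c) = Finsupp.single S (c * ∑ l ∈ S, x l) := by
  unfold Dg
  rw [Finsupp.linearCombination_single, Finsupp.smul_single, smul_eq_mul]

theorem RRC_sum_move (x : Lab → R) {b : ℕ} {S : St} {l : Lab} (hl : l ∈ addable b S) :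
    ∑ z ∈ move b S l, x z = ∑ z ∈ S, x z + (x (up b l) - x l) := by
  unfold addable at hl
  rw [mem_filter] at hl
  unfold move
  rw [sum_insert (fun h => hl.2 (mem_of_mem_erase h)), ← add_sum_erase S x hl.1]
  ring

theorem RRC_diag (x y : Lab → R) (b : ℕ) :
    Dg x ∘ₗ Rib y b - Rib y b ∘ₗ Dg x = Rib (fun l => (x (up b l) - x l) * y l) b := by
  refine Finsupp.lhom_ext' fun S => LinearMap.ext_ring ?_
  simp only [LinearMap.comp_apply, LinearMap.sub_apply, Finsupp.lsingle_apply]
  have h1 : Finsupp.single S (1 * ∑ l ∈ S, x l) = (∑ l ∈ S, x l) • Finsupp.single S (1 : R) := by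
    rw [Finsupp.smul_single, smul_eq_mul, mul_comm]
  rw [RRC_Dg_single, h1, map_smul, Rib_single, Rib_single, map_sum, smul_sum, ← sum_sub_distrib]
  refine sum_congr rfl fun l hl => ?_
  rw [RRC_Dg_single, Finsupp.smul_single, ← Finsupp.single_sub, RRC_sum_move x hl]
  congr 1
  rw [smul_eq_mul]
  ring

end rrc

theorem RRC : RRC_stmt := by
  intro R _ x y a b u ha hb
  constructor
  · have h := congrArg (fun L : (St →₀ R) →ₗ[R] (St →₀ R) => L u) (CAR_gen x y a b ha hb)
    simp only [LinearMap.sub_apply, LinearMap.comp_apply] at h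
    rw [h]
    congr 2
    funext l
    ring
  · have h := congrArg (fun L : (St →₀ R) →ₗ[R] (St →₀ R) => L u) (RRC_diag x y b)
    simp only [LinearMap.sub_apply, LinearMap.comp_apply] at h
    exact h

end Pool.Agent.helper27.PC
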